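import Mathlib

/-!
The set of codes of ill-founded trees is not Borel (adapted from the starting file of `S14362`).
-/

set_option autoImplicit false

namespace Pool.Agent.R606.CO

open Set Filter Topology MeasureTheory

/-- Initial segments, written backwards. -/
def pre {α : Type} (x : ℕ → α) : ℕ → List α
  | 0 => []
  | n + 1 => x n :: pre x n

theorem pre_length {α : Type} (x : ℕ → α) (n : ℕ) : (pre x n).length = n := by
  induction n with
  | zero => rfl
  | succ n ih => simp [pre, ih]

theorem pre_eq {α : Type} {x y : ℕ → α} {n : ℕ} (h : pre x n = pre y n) : ∀ i < n, x i = y i := by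
  induction n with
  | zero => intro i hi; omega
  | succ n ih =>
    intro i hi
    simp only [pre, List.cons.injEq] at h
    rcases Nat.lt_succ_iff_lt_or_eq.mp hi with h1 | h1
    · exact ih h.2 i h1
    · rw [h1]; exact h.1

/-- The tree coded by `z`. -/
def Tr (z : ℕ → Bool) : Set (List ℕ) :=
  {s | z (Encodable.encode (pre z s.length, s)) = true}

/-- The set of codes of ill-founded trees. -/
def IF : Set (ℕ → Bool) := {z | ∃ y : ℕ → ℕ, ∀ n, pre y n ∈ Tr z}

theorem measurableSet_pre (n : ℕ) (u : List Bool) : MeasurableSet {z : ℕ → Bool | pre z n = u} := by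
  induction n generalizing u with
  | zero =>
    by_cases h : u = []
    · simp [pre, h]
    · have : {z : ℕ → Bool | pre z 0 = u} = ∅ := by
        ext z
        simp only [pre, mem_ofPred_eq, mem_empty_iff_false, iff_false]
        exact fun h' => h h'.symm
      rw [this]
      exact MeasurableSet.empty
  | succ n ih =>
    cases u with
    | nil =>
      have : {z : ℕ → Bool | pre z (n + 1) = []} = ∅ := by
        ext z
        simp [pre]
      rw [this]
      exact MeasurableSet.empty
    | cons b u =>
      have : {z : ℕ → Bool | pre z (n + 1) = b :: u} =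
          (fun z : ℕ → Bool => z n) ⁻¹' {b} ∩ {z | pre z n = u} := by
        ext z
        simp [pre]
      rw [this]
      exact (measurable_pi_apply n (MeasurableSet.singleton b)).inter (ih u)

theorem measurableSet_Tr (s : List ℕ) : MeasurableSet {z : ℕ → Bool | s ∈ Tr z} := by
  have : {z : ℕ → Bool | s ∈ Tr z} = ⋃ u : List Bool,
      ({z | pre z s.length = u} ∩ (fun z : ℕ → Bool => z (Encodable.encode (u, s))) ⁻¹' {true}) := by
    ext z
    simp [Tr]
  rw [this]
  refine MeasurableSet.iUnion fun u => (measurableSet_pre _ u).inter ?_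
  exact measurable_pi_apply _ (MeasurableSet.singleton true)

theorem not_measurableSet_IF : ¬ MeasurableSet IF := by
  classical
  intro hIF
  have : PolishSpace (ℕ → Bool) := ⟨⟩
  have h1 := hIF.compl.analyticSet
  rw [AnalyticSet] at h1
  rcases h1 with h1 | ⟨f, hf, hfr⟩
  · have h2 : (fun _ : ℕ => false) ∈ IFᶜ := by
      rintro ⟨y, hy⟩
      have := hy 0
      simp [Tr] at this
    rw [h1] at h2
    exact h2
  · let R : List Bool × List ℕ → Prop := fun p =>
      ∃ y : ℕ → ℕ, pre y p.2.length = p.2 ∧ pre (f y) p.2.length = p.1
    let z0 : ℕ → Bool := fun m =>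
      match (Encodable.decode m : Option (List Bool × List ℕ)) with
      | none => false
      | some p => decide (R p)
    have hz0 : ∀ p, z0 (Encodable.encode p) = true ↔ R p := by
      intro p
      have h4 := Encodable.encodek p
      simp only [z0, h4, decide_eq_true_eq]
    have key : ∀ z : ℕ → Bool,
        (∃ y : ℕ → ℕ, ∀ n, z0 (Encodable.encode (pre z n, pre y n)) = true) ↔ z ∈ range f := by
      intro z
      constructor
      · rintro ⟨y, hy⟩
        refine ⟨y, ?_⟩
        have h3 : ∀ n, ∃ y' : ℕ → ℕ, pre y' n = pre y n ∧ pre (f y') n = pre z n := by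
          intro n
          obtain ⟨y', h4, h5⟩ := (hz0 _).mp (hy n)
          simp only [pre_length] at h4 h5
          exact ⟨y', h4, h5⟩
        choose Y hY1 hY2 using h3
        have h4 : Tendsto Y atTop (𝓝 y) := by
          rw [tendsto_pi_nhds]
          intro i
          apply tendsto_const_nhds.congr'
          filter_upwards [eventually_gt_atTop i] with n hn
          exact (pre_eq (hY1 n) i hn).symm
        have h5 : Tendsto (fun n => f (Y n)) atTop (𝓝 z) := by
          rw [tendsto_pi_nhds]
          intro i
          apply tendsto_const_nhds.congr'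
          filter_upwards [eventually_gt_atTop i] with n hn
          exact (pre_eq (hY2 n) i hn).symm
        exact tendsto_nhds_unique ((hf.tendsto y).comp h4) h5
      · rintro ⟨y, rfl⟩
        refine ⟨y, fun n => (hz0 _).mpr ⟨y, ?_, ?_⟩⟩
        · simp only [pre_length]
        · simp only [pre_length]
    have h2 : z0 ∈ IF ↔ z0 ∈ range f := by
      rw [← key]
      simp only [IF, Tr, mem_ofPred_eq, pre_length]
    rw [hfr] at h2
    by_cases h3 : z0 ∈ IF
    · exact (h2.mp h3) h3
    · exact h3 (h2.mpr h3)

/-- The tree generated by `Tr z`: all initial segments belong to `Tr z`. -/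
def TS (z : ℕ → Bool) : List ℕ → Prop
  | [] => ([] : List ℕ) ∈ Tr z
  | n :: t => TS z t ∧ (n :: t) ∈ Tr z

theorem measurableSet_TS (s : List ℕ) : MeasurableSet {z : ℕ → Bool | TS z s} := by
  induction s with
  | nil => exact measurableSet_Tr []
  | cons n t ih =>
    have : {z : ℕ → Bool | TS z (n :: t)} = {z | TS z t} ∩ {z | (n :: t) ∈ Tr z} := by
      ext z; rfl
    rw [this]
    exact ih.inter (measurableSet_Tr _)

theorem mem_IF_iff (z : ℕ → Bool) : z ∈ IF ↔ ∃ y : ℕ → ℕ, ∀ n, TS z (pre y n) := by
  constructor
  · rintro ⟨y, hy⟩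
    refine ⟨y, fun n => ?_⟩
    induction n with
    | zero => exact hy 0
    | succ n ih => exact ⟨ih, hy (n + 1)⟩
  · rintro ⟨y, hy⟩
    refine ⟨y, fun n => ?_⟩
    cases n with
    | zero => exact hy 0
    | succ n => exact (hy (n + 1)).2

theorem TS_of_append {z : ℕ → Bool} {u t : List ℕ} (h : TS z (u ++ t)) : TS z t := by
  induction u with
  | nil => exact h
  | cons n u ih => exact ih h.1

end Pool.Agent.R606.CO
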