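import Pool.Agent.R606.CO.Scheme

/-!
If the covers of a set by members of a countable basis form a Borel set, they form a `G_δ` set.
-/

set_option autoImplicit false

namespace Pool.Agent.R606.CO

open Set Filter Topology MeasureTheory TopologicalSpace

universe u

variable {X : Type u} [TopologicalSpace X] {U : ℕ → Set X}

/-- the codes of the open sets which contain `V` -/
def Cov (U : ℕ → Set X) (V : Set X) : Set (ℕ → ℕ) := {y | V ⊆ ⋃ n, U (y n)}

omit [TopologicalSpace X] in
theorem measurableSet_covSet {V : Set X} (hV : V.Nonempty) (hC : MeasurableSet (Cov U V)) :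
    MeasurableSet {B : ℕ → Bool | ∀ x ∈ V, ∃ n, B n = true ∧ x ∈ U n} := by
  classical
  have h1 : {B : ℕ → Bool | ∀ x ∈ V, ∃ n, B n = true ∧ x ∈ U n} =
      ⋃ k : ℕ, ((fun B : ℕ → Bool => B k) ⁻¹' {true} ∩
        (fun (B : ℕ → Bool) (j : ℕ) => if B j = true then j else k) ⁻¹' (Cov U V)) := by
    ext B
    simp only [mem_ofPred_eq, mem_iUnion, mem_inter_iff, mem_preimage, mem_singleton_iff, Cov]
    constructor
    · intro h
      obtain ⟨x0, hx0⟩ := hV
      obtain ⟨k, hk, -⟩ := h x0 hx0
      refine ⟨k, hk, fun x hx => ?_⟩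
      obtain ⟨n, hn, hxn⟩ := h x hx
      exact mem_iUnion.2 ⟨n, by rw [if_pos hn]; exact hxn⟩
    · rintro ⟨k, hk, h⟩ x hx
      obtain ⟨n, hn⟩ := mem_iUnion.1 (h hx)
      by_cases hB : B n = true
      · rw [if_pos hB] at hn
        exact ⟨n, hB, hn⟩
      · rw [if_neg hB] at hn
        exact ⟨k, hk, hn⟩
  rw [h1]
  refine MeasurableSet.iUnion fun k => ?_
  refine (measurable_pi_apply k (MeasurableSet.singleton true)).inter ?_
  refine (measurable_pi_iff.2 fun j => ?_) hC
  have h2 : MeasurableSet {B : ℕ → Bool | B j = true} := by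
    have := measurable_pi_apply (X := fun _ : ℕ => Bool) j (MeasurableSet.singleton true)
    exact this
  exact Measurable.ite h2 measurable_const measurable_const

/-- The key fact. -/
theorem isGδ_cov (hU : IsTopologicalBasis (range U)) {V : Set X} (hC : MeasurableSet (Cov U V)) :
    IsGδ (Cov U V) := by
  classical
  rcases V.eq_empty_or_nonempty with rfl | hV
  · have : Cov U (∅ : Set X) = univ := by
      ext y; simp [Cov]
    rw [this]
    exact IsGδ.univ
  by_contra hG
  -- the complement is analytic
  have hPol : PolishSpace (ℕ → ℕ) := inferInstance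
  have hA := hC.compl.analyticSet
  rw [AnalyticSet] at hA
  rcases hA with hA | ⟨f, hf, hfr⟩
  · apply hG
    have h : Cov U V = univ := by rw [← compl_compl (Cov U V), hA, compl_empty]
    rw [h]
    exact IsGδ.univ
  have hns : ¬ Small f (range f) univ := by
    rintro ⟨F, h1, h2, h3⟩
    apply hG
    have h4 : Cov U V = ⋂ k, (F k)ᶜ := by
      ext y
      rw [mem_iInter]
      constructor
      · intro hy k hk
        have := h2 k hk
        rw [hfr] at this
        exact this hy
      · intro hy
        by_contra hyC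
        have h5 : y ∈ range f := by rw [hfr]; exact hyC
        obtain ⟨x, rfl⟩ := h5
        obtain ⟨k, hk⟩ := h3 x (mem_univ x)
        exact hy k hk
    rw [h4]
    exact IsGδ.iInter_of_isOpen fun k => (h1 k).isOpen_compl
  obtain ⟨b, hb1, hb2, hb3⟩ := exists_scheme f hf hns
  have hbC : ∀ t, b t ∈ Cov U V := by
    intro t
    have := hb1 t
    rw [hfr] at this
    simpa using this
  -- the code of the intersection
  let R : (ℕ → Bool) → ℕ → Prop := fun w n => ∃ (F : Finset ℕ) (l : ℕ),
    (∀ i ∈ F, U n ⊆ U i) ∧ ∀ t, TS w t → ∃ j ≤ l, b t j ∈ F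
  have hRm : ∀ n, MeasurableSet {w | R w n} := by
    intro n
    have : {w | R w n} = ⋃ (F : Finset ℕ), ⋃ (l : ℕ), ⋂ (t : List ℕ),
        ({w | (∀ i ∈ F, U n ⊆ U i)} ∩ ({w | TS w t}ᶜ ∪ {w | ∃ j ≤ l, b t j ∈ F})) := by
      ext w
      simp only [R, mem_ofPred_eq, mem_iUnion, mem_iInter, mem_inter_iff, mem_union, mem_compl_iff]
      constructor
      · rintro ⟨F, l, h1, h2⟩
        exact ⟨F, l, fun t => ⟨h1, by
          by_cases ht : TS w t
          · exact Or.inr (h2 t ht)
          · exact Or.inl ht⟩⟩
      · rintro ⟨F, l, h⟩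
        exact ⟨F, l, (h []).1, fun t ht => (h t).2.resolve_left (fun h' => h' ht)⟩
    rw [this]
    refine MeasurableSet.iUnion fun F => MeasurableSet.iUnion fun l => MeasurableSet.iInter
      fun t => ?_
    refine (MeasurableSet.const _).inter (MeasurableSet.union ?_ (MeasurableSet.const _))
    exact (measurableSet_TS t).compl
  have hmeas : Measurable (fun (w : ℕ → Bool) (n : ℕ) => decide (R w n)) := by
    refine measurable_pi_iff.2 fun n => ?_
    refine measurable_to_bool ?_
    have : (fun w : ℕ → Bool => decide (R w n)) ⁻¹' {true} = {w | R w n} := by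
      ext w
      simp
    rw [this]
    exact hRm n
  have hfin : MeasurableSet {w : ℕ → Bool | ∀ x ∈ V, ∃ n, R w n ∧ x ∈ U n} := by
    have := hmeas (measurableSet_covSet hV hC)
    simpa [preimage] using this
  -- it is the complement of the set of ill-founded trees
  have hkey : {w : ℕ → Bool | ∀ x ∈ V, ∃ n, R w n ∧ x ∈ U n} = IFᶜ := by
    ext w
    simp only [mem_ofPred_eq, mem_compl_iff]
    constructor
    · intro h hw
      rw [mem_IF_iff] at hw
      obtain ⟨β, hβ⟩ := hw
      obtain ⟨y, hy, hlim⟩ := hb3 β
      rw [hfr] at hy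
      apply hy
      intro x hx
      obtain ⟨n, ⟨F, l, h1, h2⟩, hxn⟩ := h x hx
      choose k hk using hlim
      -- a common bound
      let K := (Finset.range (l + 1)).sup k
      obtain ⟨j, hj, hjF⟩ := h2 _ (hβ K)
      have h3 : b (pre β K) j = y j := hk j K (Finset.le_sup (by simp; omega))
      rw [h3] at hjF
      exact mem_iUnion.2 ⟨j, h1 _ hjF hxn⟩
    · intro hw x hx
      have hx' : ∀ t, ∃ j, x ∈ U (b t j) := fun t => mem_iUnion.1 (hbC t hx)
      -- bad nodes
      let Bad : List ℕ → Prop := fun t => TS w t ∧ ¬ ∃ (F : Finset ℕ) (l : ℕ),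
        (∀ i ∈ F, x ∈ U i) ∧ ∀ u, TS w (u ++ t) → ∃ j ≤ l, b (u ++ t) j ∈ F
      have hstep : ∀ t, Bad t → ∃ n, Bad (n :: t) := by
        intro t ht
        by_contra hcon
        push Not at hcon
        apply ht.2
        obtain ⟨j0, hj0⟩ := hx' t
        have h4 : ∀ n, ∃ (F : Finset ℕ) (l : ℕ), (∀ i ∈ F, x ∈ U i) ∧
            ∀ u, TS w (u ++ n :: t) → ∃ j ≤ l, b (u ++ n :: t) j ∈ F := by
          intro n
          by_cases hn : TS w (n :: t)
          · by_contra h5
            exact hcon n ⟨hn, h5⟩
          · refine ⟨∅, 0, by simp, fun u hu => ?_⟩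
            exact absurd (TS_of_append hu) hn
        choose F l h5 h6 using h4
        refine ⟨insert (b t j0) ((Finset.range (j0 + 1)).biUnion F),
          max j0 ((Finset.range (j0 + 1)).sup l), ?_, ?_⟩
        · intro i hi
          rw [Finset.mem_insert, Finset.mem_biUnion] at hi
          rcases hi with rfl | ⟨n, -, hn⟩
          · exact hj0
          · exact h5 n i hn
        · intro u hu
          rcases List.eq_nil_or_concat u with rfl | ⟨u', n, rfl⟩
          · exact ⟨j0, le_max_left _ _, by simp⟩
          · rw [List.concat_eq_append, List.append_assoc, List.singleton_append] at hu ⊢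
            by_cases hn : n ≤ j0
            · obtain ⟨j, hj, hjF⟩ := h6 n u' hu
              refine ⟨j, hj.trans (le_trans (Finset.le_sup (f := l) (by simp; omega))
                (le_max_right _ _)), ?_⟩
              rw [Finset.mem_insert, Finset.mem_biUnion]
              exact Or.inr ⟨n, by simp; omega, hjF⟩
            · refine ⟨j0, le_max_left _ _, ?_⟩
              rw [← hb2 t n u' j0 (by omega)]
              simp
      by_cases hroot : Bad []
      · exfalso
        apply hw
        rw [mem_IF_iff]
        choose! g hg using hstep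
        let seq : ℕ → List ℕ := fun n => Nat.rec [] (fun _ t => g t :: t) n
        have hseq : ∀ n, Bad (seq n) := by
          intro n
          induction n with
          | zero => exact hroot
          | succ n ih => exact hg _ ih
        refine ⟨fun n => g (seq n), fun n => ?_⟩
        have h7 : ∀ n, pre (fun n => g (seq n)) n = seq n := by
          intro n
          induction n with
          | zero => rfl
          | succ n ih =>
            rw [pre, ih]
        rw [h7]
        exact (hseq n).1
      · -- conclude at the root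
        have h8 : ∃ (F : Finset ℕ) (l : ℕ), (∀ i ∈ F, x ∈ U i) ∧
            ∀ u, TS w u → ∃ j ≤ l, b u j ∈ F := by
          by_cases h9 : TS w []
          · by_contra h10
            apply hroot
            refine ⟨h9, ?_⟩
            simpa using h10
          · refine ⟨∅, 0, by simp, fun u hu => ?_⟩
            refine absurd (TS_of_append (u := u) (t := []) ?_) h9
            simpa using hu
        obtain ⟨F, l, h9, h10⟩ := h8
        have hopen : IsOpen (⋂ i ∈ F, U i) :=
          isOpen_biInter_finset fun i _ => hU.isOpen ⟨i, rfl⟩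
        obtain ⟨s, ⟨n, rfl⟩, hxn, hn⟩ := hU.exists_subset_of_mem_open
          (show x ∈ ⋂ i ∈ F, U i from mem_iInter₂.2 h9) hopen
        exact ⟨n, ⟨F, l, fun i hi => hn.trans (iInter₂_subset i hi), h10⟩, hxn⟩
  rw [hkey] at hfin
  apply not_measurableSet_IF
  simpa using hfin.compl

/-- The relation of coding the same open set. -/
def SameOpen (U : ℕ → Set X) : Set ((ℕ → ℕ) × (ℕ → ℕ)) :=
  {p | ⋃ n, U (p.1 n) = ⋃ n, U (p.2 n)}

theorem isGδ_sameOpen (hU : IsTopologicalBasis (range U)) (hE : MeasurableSet (SameOpen U)) :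
    IsGδ (SameOpen U) := by
  classical
  -- all the sets of covers are Borel
  have h1 : ∀ m, IsGδ (Cov U (U m)) := by
    intro m
    refine isGδ_cov hU ?_
    have h2 : Cov U (U m) = (fun y : ℕ → ℕ =>
        ((fun n => Nat.casesOn n m (fun k => y k) : ℕ → ℕ), y)) ⁻¹' SameOpen U := by
      ext y
      simp only [Cov, SameOpen, mem_ofPred_eq, mem_preimage]
      constructor
      · intro h
        apply Subset.antisymm
        · intro x hx
          obtain ⟨n, hn⟩ := mem_iUnion.1 hx
          cases n with
          | zero => exact h hn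
          | succ k => exact mem_iUnion.2 ⟨k, hn⟩
        · intro x hx
          obtain ⟨n, hn⟩ := mem_iUnion.1 hx
          exact mem_iUnion.2 ⟨n + 1, hn⟩
      · intro h x hx
        rw [← h]
        exact mem_iUnion.2 ⟨0, hx⟩
    rw [h2]
    refine (Measurable.prodMk ?_ measurable_id) hE
    refine measurable_pi_iff.2 fun n => ?_
    cases n with
    | zero => exact measurable_const
    | succ k => exact measurable_pi_apply k
  choose G hG1 hG2 using fun m => isGδ_iff_eq_iInter_nat.1 (h1 m)
  have hpiece : ∀ (a c : (ℕ → ℕ) × (ℕ → ℕ) → (ℕ → ℕ)), Continuous a → Continuous c →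
      IsGδ {p | ∀ n, c p ∈ Cov U (U (a p n))} := by
    intro a c ha hc
    have h3 : {p | ∀ n, c p ∈ Cov U (U (a p n))} =
        ⋂ n, ⋂ k, ⋃ m, ({p | a p n = m} ∩ c ⁻¹' (G m k)) := by
      ext p
      simp only [mem_ofPred_eq, mem_iInter, mem_iUnion, mem_inter_iff, mem_preimage]
      constructor
      · intro h n k
        refine ⟨a p n, rfl, ?_⟩
        have := h n
        rw [hG2] at this
        exact mem_iInter.1 this k
      · intro h n
        rw [hG2, mem_iInter]
        intro k
        obtain ⟨m, hm, h4⟩ := h n k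
        rw [hm]
        exact h4
    rw [h3]
    refine IsGδ.iInter fun n => IsGδ.iInter fun k => IsOpen.isGδ ?_
    refine isOpen_iUnion fun m => IsOpen.inter ?_ ((hG1 m k).preimage hc)
    exact (isOpen_discrete {m}).preimage ((continuous_apply (A := fun _ : ℕ => ℕ) n).comp ha)
  have h4 : SameOpen U = {p | ∀ n, p.2 ∈ Cov U (U (p.1 n))} ∩ {p | ∀ n, p.1 ∈ Cov U (U (p.2 n))} := by
    ext p
    simp only [SameOpen, Cov, mem_ofPred_eq, mem_inter_iff]
    constructor
    · intro h
      exact ⟨fun n => by rw [← h]; exact subset_iUnion (fun n => U (p.1 n)) n,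
        fun n => by rw [h]; exact subset_iUnion (fun n => U (p.2 n)) n⟩
    · rintro ⟨h5, h6⟩
      exact Subset.antisymm (iUnion_subset h5) (iUnion_subset h6)
  rw [h4]
  exact (hpiece Prod.fst Prod.snd continuous_fst continuous_snd).inter
    (hpiece Prod.snd Prod.fst continuous_snd continuous_fst)

end Pool.Agent.R606.CO
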