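import Pool.Agent.R606.CO.IF

/-!
A scheme for a coanalytic subset of the Baire space which is not `G_δ` (Hurewicz).
-/

set_option autoImplicit false

namespace Pool.Agent.R606.CO

open Set Filter Topology MeasureTheory

/-- `x` and `y` agree below `n`. -/
def Ag (x y : ℕ → ℕ) (n : ℕ) : Prop := ∀ i < n, x i = y i

theorem Ag.symm {x y : ℕ → ℕ} {n : ℕ} (h : Ag x y n) : Ag y x n := fun i hi => (h i hi).symm

theorem Ag.trans {x y z : ℕ → ℕ} {n : ℕ} (h : Ag x y n) (h' : Ag y z n) : Ag x z n :=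
  fun i hi => (h i hi).trans (h' i hi)

theorem Ag.mono {x y : ℕ → ℕ} {n m : ℕ} (h : Ag x y n) (hm : m ≤ n) : Ag x y m :=
  fun i hi => h i (lt_of_lt_of_le hi hm)

theorem isOpen_Ag (x : ℕ → ℕ) (n : ℕ) : IsOpen {y | Ag x y n} := by
  have : {y | Ag x y n} = ⋂ i ∈ Finset.range n, {y : ℕ → ℕ | y i = x i} := by
    ext y
    simp only [Ag, mem_ofPred_eq, mem_iInter, Finset.mem_range]
    exact ⟨fun h i hi => (h i hi).symm, fun h i hi => (h i hi).symm⟩
  rw [this]
  refine isOpen_biInter_finset fun i _ => ?_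
  exact (isOpen_discrete {x i}).preimage (continuous_apply (A := fun _ : ℕ => ℕ) i)

theorem exists_Ag_subset {x : ℕ → ℕ} {V : Set (ℕ → ℕ)} (hV : IsOpen V) (hx : x ∈ V) :
    ∃ n, ∀ y, Ag x y n → y ∈ V := by
  rw [isOpen_pi_iff] at hV
  obtain ⟨I, u, hu, hs⟩ := hV x hx
  refine ⟨I.sup id + 1, fun y hy => hs ?_⟩
  intro i hi
  have h1 : i ≤ I.sup id := Finset.le_sup (f := id) hi
  have h2 := hy i (by omega)
  rw [← h2]
  exact (hu i hi).2

/-- `S` is small: its image is covered by countably many closed subsets of `A`. -/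
def Small (f : (ℕ → ℕ) → (ℕ → ℕ)) (A : Set (ℕ → ℕ)) (S : Set (ℕ → ℕ)) : Prop :=
  ∃ F : ℕ → Set (ℕ → ℕ), (∀ k, IsClosed (F k)) ∧ (∀ k, F k ⊆ A) ∧ ∀ x ∈ S, ∃ k, f x ∈ F k

theorem Small.mono {f : (ℕ → ℕ) → (ℕ → ℕ)} {A S T : Set (ℕ → ℕ)} (h : Small f A S) (hT : T ⊆ S) :
    Small f A T := by
  obtain ⟨F, h1, h2, h3⟩ := h
  exact ⟨F, h1, h2, fun x hx => h3 x (hT hx)⟩

theorem Small.iUnion {f : (ℕ → ℕ) → (ℕ → ℕ)} {A : Set (ℕ → ℕ)} {ι : Type} [Countable ι]
    {S : ι → Set (ℕ → ℕ)} (h : ∀ i, Small f A (S i)) : Small f A (⋃ i, S i) := by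
  choose F h1 h2 h3 using h
  rcases isEmpty_or_nonempty ι with he | hne
  · refine ⟨fun _ => ∅, fun _ => isClosed_empty, fun _ => empty_subset _, fun x hx => ?_⟩
    simp at hx
  · obtain ⟨e, he⟩ := exists_surjective_nat (ι × ℕ)
    refine ⟨fun k => F (e k).1 (e k).2, fun k => h1 _ _, fun k => h2 _ _, fun x hx => ?_⟩
    obtain ⟨i, hi⟩ := mem_iUnion.1 hx
    obtain ⟨k, hk⟩ := h3 i x hi
    obtain ⟨m, hm⟩ := he (i, k)
    exact ⟨m, by simpa [hm] using hk⟩

/-- The points all of whose neighbourhoods are not small. -/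
def PP (f : (ℕ → ℕ) → (ℕ → ℕ)) (A : Set (ℕ → ℕ)) : Set (ℕ → ℕ) :=
  {x | ∀ n, ¬ Small f A {y | Ag x y n}}

theorem small_compl_PP (f : (ℕ → ℕ) → (ℕ → ℕ)) (A : Set (ℕ → ℕ)) : Small f A (PP f A)ᶜ := by
  classical
  let ι : Type := {p : List ℕ // Small f A {y | pre y p.length = p}}
  have h1 : Small f A (⋃ i : ι, {y | pre y i.1.length = i.1}) := Small.iUnion fun i => i.2
  refine h1.mono ?_
  intro x hx
  simp only [PP, mem_compl_iff, mem_ofPred_eq, not_forall, not_not] at hx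
  obtain ⟨n, hn⟩ := hx
  have h2 : {y | pre y (pre x n).length = pre x n} ⊆ {y | Ag x y n} := by
    intro y hy
    rw [mem_ofPred_eq, pre_length] at hy
    intro i hi
    exact (pre_eq hy i hi).symm
  refine mem_iUnion.2 ⟨⟨pre x n, hn.mono h2⟩, ?_⟩
  simp [pre_length]

theorem not_small_inter {f : (ℕ → ℕ) → (ℕ → ℕ)} {A : Set (ℕ → ℕ)} {x : ℕ → ℕ} (hx : x ∈ PP f A)
    (n : ℕ) : ¬ Small f A ({y | Ag x y n} ∩ PP f A) := by
  intro h
  apply hx n
  have h1 : Small f A (⋃ b : Bool, if b then ({y | Ag x y n} ∩ PP f A) else (PP f A)ᶜ) := by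
    refine Small.iUnion fun b => ?_
    cases b
    · simpa using small_compl_PP f A
    · simpa using h
  refine h1.mono ?_
  intro y hy
  by_cases hy' : y ∈ PP f A
  · exact mem_iUnion.2 ⟨true, by simpa using ⟨hy, hy'⟩⟩
  · exact mem_iUnion.2 ⟨false, by simpa using hy'⟩

/-- near every neighbourhood in `PP` there is a point outside of `A` in the closure of the image -/
theorem exists_limit {f : (ℕ → ℕ) → (ℕ → ℕ)} {A : Set (ℕ → ℕ)} {x : ℕ → ℕ} (hx : x ∈ PP f A)
    (n : ℕ) : ∃ b, b ∉ A ∧ ∀ m, ∃ y ∈ PP f A, Ag x y n ∧ Ag b (f y) m := by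
  by_contra hcon
  push Not at hcon
  apply not_small_inter hx n
  refine ⟨fun _ => closure (f '' ({y | Ag x y n} ∩ PP f A)), fun _ => isClosed_closure, ?_, ?_⟩
  · intro _ b hb
    by_contra hbA
    obtain ⟨m, hm⟩ := hcon b hbA
    obtain ⟨z, hz1, hz2⟩ := mem_closure_iff.1 hb _ (isOpen_Ag b m) (fun i _ => rfl)
    obtain ⟨y, ⟨hy1, hy2⟩, rfl⟩ := hz2
    exact hm y hy2 hy1 hz1
  · intro y hy
    exact ⟨0, subset_closure ⟨y, hy, rfl⟩⟩

section
variable (f : (ℕ → ℕ) → (ℕ → ℕ)) (A : Set (ℕ → ℕ))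

/-- states of the construction: a point of `PP` and a length -/
structure St where
  x : ℕ → ℕ
  hx : x ∈ PP f A
  m : ℕ

variable {f A}

/-- the limit point outside of `A` of a state -/
noncomputable def St.b (s : St f A) : ℕ → ℕ := Classical.choose (exists_limit s.hx s.m)

theorem St.b_notMem (s : St f A) : s.b ∉ A := (Classical.choose_spec (exists_limit s.hx s.m)).1

theorem St.b_spec (s : St f A) (m : ℕ) : ∃ y ∈ PP f A, Ag s.x y s.m ∧ Ag s.b (f y) m :=
  (Classical.choose_spec (exists_limit s.hx s.m)).2 m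

theorem St.exists_next (hf : Continuous f) (s : St f A) (n : ℕ) :
    ∃ s' : St f A, Ag s.x s'.x s.m ∧ s.m < s'.m ∧ ∀ y, Ag s'.x y s'.m → Ag s.b (f y) n := by
  obtain ⟨y, hy, h1, h2⟩ := s.b_spec n
  obtain ⟨k, hk⟩ := exists_Ag_subset ((isOpen_Ag s.b n).preimage hf) h2
  exact ⟨⟨y, hy, max (s.m + 1) k⟩, h1, lt_of_lt_of_le (Nat.lt_succ_self _) (le_max_left _ _),
    fun z hz => hk z (hz.mono (le_max_right _ _))⟩

end

/-- The scheme: if `A` is the range of a continuous map `f` and is not `F_σ`, there are points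
`b t` outside of `A` which converge along the tree of finite sequences. -/
theorem exists_scheme (f : (ℕ → ℕ) → (ℕ → ℕ)) (hf : Continuous f)
    (hns : ¬ Small f (range f) univ) :
    ∃ b : List ℕ → (ℕ → ℕ), (∀ t, b t ∉ range f) ∧
      (∀ (t : List ℕ) (n : ℕ) (u : List ℕ), Ag (b t) (b (u ++ n :: t)) n) ∧
      ∀ β : ℕ → ℕ, ∃ y ∈ range f, ∀ j, ∃ k, ∀ l ≥ k, b (pre β l) j = y j := by
  classical
  obtain ⟨x0, hx0⟩ : (PP f (range f)).Nonempty := by
    by_contra h
    rw [not_nonempty_iff_eq_empty] at h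
    apply hns
    have := small_compl_PP f (range f)
    rwa [h, compl_empty] at this
  choose nx h1 h2 h3 using fun (s : St f (range f)) (n : ℕ) => s.exists_next hf n
  let st : List ℕ → St f (range f) := fun t => List.rec ⟨x0, hx0, 0⟩ (fun n _ s => nx s n) t
  have hst : ∀ n t, st (n :: t) = nx (st t) n := fun n t => rfl
  -- nested
  have hAg : ∀ (u t : List ℕ), Ag (st t).x (st (u ++ t)).x (st t).m ∧ (st t).m ≤ (st (u ++ t)).m := by
    intro u t
    induction u with
    | nil => exact ⟨fun i _ => rfl, le_rfl⟩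
    | cons n u ih =>
      rw [List.cons_append, hst]
      exact ⟨ih.1.trans ((h1 (st (u ++ t)) n).mono ih.2), ih.2.trans (h2 _ n).le⟩
  have hlen : ∀ t : List ℕ, t.length ≤ (st t).m := by
    intro t
    induction t with
    | nil => simp
    | cons n t ih =>
      rw [hst, List.length_cons]
      have := h2 (st t) n
      omega
  -- the value `b s` is in every closed cylinder containing the image of the neighbourhood
  have hcl : ∀ (s t : List ℕ) (c : ℕ → ℕ) (n : ℕ), (∀ y, Ag (st t).x y (st t).m → Ag c (f y) n) →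
      Ag c (st (s ++ t)).b n := by
    intro s t c n hc
    obtain ⟨y, hy, hy1, hy2⟩ := (st (s ++ t)).b_spec n
    have h4 := hAg s t
    have h5 : Ag (st t).x y (st t).m := h4.1.trans (hy1.mono h4.2)
    exact (hc y h5).trans hy2.symm
  refine ⟨fun t => (st t).b, fun t => (st t).b_notMem, ?_, ?_⟩
  · intro t n u
    exact hcl u (n :: t) (st t).b n (fun y hy => h3 (st t) n y hy)
  · intro β
    let x : ℕ → ℕ := fun i => (st (pre β (i + 1))).x i
    have hpre : ∀ k l, k ≤ l → ∃ u, pre β l = u ++ pre β k := by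
      intro k l hkl
      induction hkl with
      | refl => exact ⟨[], rfl⟩
      | step h ih =>
        obtain ⟨u, hu⟩ := ih
        exact ⟨β _ :: u, by rw [pre, hu, List.cons_append]⟩
    have hxk : ∀ k, Ag x (st (pre β k)).x k := by
      intro k i hi
      obtain ⟨u, hu⟩ := hpre (i + 1) k hi
      have h4 := (hAg u (pre β (i + 1))).1 i (by
        have := hlen (pre β (i + 1))
        rw [pre_length] at this
        omega)
      rw [← hu] at h4
      exact h4
    have hxm : ∀ k, Ag (st (pre β k)).x x (st (pre β k)).m := by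
      intro k i hi
      have h4 := hxk (max k (i + 1)) i (lt_of_lt_of_le (Nat.lt_succ_self i) (le_max_right _ _))
      obtain ⟨u, hu⟩ := hpre k (max k (i + 1)) (le_max_left _ _)
      have h5 := (hAg u (pre β k)).1 i hi
      rw [← hu] at h5
      rw [h5, h4]
    refine ⟨f x, ⟨x, rfl⟩, fun j => ?_⟩
    obtain ⟨m, hm⟩ := exists_Ag_subset ((isOpen_Ag (f x) (j + 1)).preimage hf)
      (show f x ∈ {y | Ag (f x) y (j + 1)} from fun i _ => rfl)
    refine ⟨m, fun l hl => ?_⟩
    have h6 : ∀ y, Ag (st (pre β l)).x y (st (pre β l)).m → Ag (f x) (f y) (j + 1) := by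
      intro y hy
      apply hm
      have h7 := hlen (pre β l)
      rw [pre_length] at h7
      exact ((hxm l).symm.trans hy).mono (hl.le.trans h7)
    have h8 := hcl [] (pre β l) (f x) (j + 1) h6
    exact (h8 j (Nat.lt_succ_self j)).symm

end Pool.Agent.R606.CO
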